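import Pool.Agent.Helper16.NM.Main
import Pool.Agent.Helper25.RC.Defs

/-!
Digits of a number and of a summand: from the inequality for pairs (real lacunary moduli) to the
statement on almost all numbers.
-/

set_option autoImplicit false

open Finset Filter

namespace Pool.Agent.Helper5.NM

open Pool.Agent.Helper25.RC (rep)

open Classical in
/-- number of indices `i < k` at which `y i` and `z i` lie (modulo one) in the two arcs -/
noncomputable def hits2 (k : ℕ) (y z u l u' l' : ℕ → ℝ) : ℕ :=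
  #{i ∈ range k | Int.fract (y i - u i) < l i ∧ Int.fract (z i - u' i) < l' i}

/-- the inequality for pairs -/
def NLP : Prop := ∀ lam η : ℝ, 1 < lam → 0 < η → ∃ c : ℝ, 0 < c ∧ ∃ C : ℝ, 0 < C ∧
  ∀ (x k : ℕ) (M u l u' l' : ℕ → ℝ), (∀ i < k, 1 ≤ M i ∧ M i ≤ x) →
    (∀ i, i + 1 < k → lam * M i ≤ M (i + 1)) →
    (∀ i, 0 ≤ l i ∧ l i ≤ 1 ∧ 0 ≤ l' i ∧ l' i ≤ 1) →
    ∀ (A : Set ℕ) (G : Finset (ℕ × ℕ)),
      (∀ z ∈ G, z.1 ∈ A ∧ z.2 ∈ A ∧ z.1 < x ∧ z.2 < x ∧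
        η * k ≤ |(hits2 k (fun i => ((z.1 + z.2 : ℕ) : ℝ) / M i) (fun i => (z.1 : ℝ) / M i)
          u l u' l' : ℝ) - ∑ i ∈ range k, l i * l' i|) →
      (#G : ℝ) ^ 2 * Real.exp (c * k) ≤ C * x * ∑ m ∈ range (2 * x), (rep A m : ℝ) ^ 2

/-- number of positions `i < K` at which the block of `n` is `u` and the block of `a` is `v` -/
def blk2 (b l K n a u v : ℕ) : ℕ := #{i ∈ range K | n / b ^ i % b ^ l = u ∧ a / b ^ i % b ^ l = v}

theorem fract_iff {b l i n v : ℕ} (hb : 2 ≤ b) (hv : v < b ^ l) :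
    Int.fract ((n : ℝ) / (b : ℝ) ^ (i + l) - (v : ℝ) / (b : ℝ) ^ l) < 1 / (b : ℝ) ^ l
      ↔ n / b ^ i % b ^ l = v := by
  rw [← Pool.Agent.Helper16.NM.fract_lt_iff hb hv, lt_div_iff₀ (by positivity)]
  push_cast
  rw [mul_comm]

theorem hits2_eq {b l K n a u v : ℕ} (hb : 2 ≤ b) (hu : u < b ^ l) (hv : v < b ^ l) :
    hits2 K (fun i => (n : ℝ) / (b : ℝ) ^ (i + l)) (fun i => (a : ℝ) / (b : ℝ) ^ (i + l))
      (fun _ => (u : ℝ) / (b : ℝ) ^ l) (fun _ => 1 / (b : ℝ) ^ l)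
      (fun _ => (v : ℝ) / (b : ℝ) ^ l) (fun _ => 1 / (b : ℝ) ^ l) = blk2 b l K n a u v := by
  unfold hits2 blk2
  congr 1
  apply filter_congr
  intro i _
  rw [fract_iff hb hu, fract_iff hb hv]

theorem rep_bound {A : Set ℕ} {c : ℝ} (hc : 0 ≤ c)
    (h : ∀ᶠ n : ℕ in atTop, (rep A n : ℝ) < (n : ℝ) ^ c) :
    ∃ R : ℝ, 0 < R ∧ ∀ X m : ℕ, m < X → (rep A m : ℝ) ≤ R * (X : ℝ) ^ c := by
  obtain ⟨N0, hN0⟩ := eventually_atTop.1 h
  refine ⟨∑ m ∈ range N0, (rep A m : ℝ) + 1, by positivity, fun X m hm => ?_⟩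
  have hX : (1 : ℝ) ≤ (X : ℝ) := by exact_mod_cast (by omega : 1 ≤ X)
  have hXc : (1 : ℝ) ≤ (X : ℝ) ^ c := Real.one_le_rpow hX hc
  have hs : 0 ≤ ∑ m ∈ range N0, (rep A m : ℝ) := sum_nonneg fun _ _ => by positivity
  rcases lt_or_ge m N0 with h1 | h1
  · have h2 : (rep A m : ℝ) ≤ ∑ m ∈ range N0, (rep A m : ℝ) :=
      single_le_sum (f := fun m => (rep A m : ℝ)) (fun _ _ => by positivity) (mem_range.2 h1)
    nlinarith
  · have h2 := hN0 m h1
    have h3 : (m : ℝ) ^ c ≤ (X : ℝ) ^ c :=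
      Real.rpow_le_rpow (by positivity) (by exact_mod_cast hm.le) hc
    nlinarith

/-- For almost all `n` the digits of `n` and the digits of a summand are independent, in every
representation. -/
theorem pairs_inf (hN : NLP) {b l : ℕ} (hb : 2 ≤ b) {ε : ℝ} (hε : 0 < ε) :
    ∃ c : ℝ, 0 < c ∧ ∀ A : Set ℕ, (∀ᶠ n : ℕ in atTop, (rep A n : ℝ) < (n : ℝ) ^ c) →
      ∀ᶠ K : ℕ in atTop,
        (({n : ℕ | n < b ^ K ∧ ∃ a ∈ A, ∃ a' ∈ A, a + a' = n ∧ ∃ u < b ^ l, ∃ v < b ^ l,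
          ε * K ≤ |(blk2 b l K n a u v : ℝ) - K / (b : ℝ) ^ (2 * l)|}.ncard : ℕ) : ℝ) ≤
          (b : ℝ) ^ ((1 - c) * K) := by
  classical
  have hb1 : (1 : ℝ) < (b : ℝ) := by exact_mod_cast (by omega : 1 < b)
  have hb0 : (0 : ℝ) < (b : ℝ) := by linarith
  obtain ⟨c0, hc0, C0, hC0, hmain⟩ := hN b ε hb1 hε
  have hlog : 0 < Real.log b := Real.log_pos hb1
  set κ : ℝ := c0 / Real.log b with hκ
  have hκ0 : 0 < κ := by positivity
  refine ⟨κ / 8, by positivity, fun A hA => ?_⟩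
  obtain ⟨R, hR0, hR⟩ := rep_bound (by positivity) hA
  -- the constants
  set c : ℝ := κ / 8 with hc
  have hcpos : 0 < c := by positivity
  set D : ℝ := 2 * C0 * R ^ 2 * ((b : ℝ) ^ l) ^ 2 * ((2 * (b : ℝ) ^ l) ^ c) ^ 2 with hD
  have hD0 : 0 < D := by positivity
  -- eventually the power beats the constant
  have hev : ∀ᶠ K : ℕ in atTop, ((b : ℝ) ^ l) ^ 2 * √D ≤ (b : ℝ) ^ ((κ / 4) * (K : ℝ)) := by
    have h1 : Tendsto (fun K : ℕ => (b : ℝ) ^ ((κ / 4) * (K : ℝ))) atTop atTop := by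
      apply (tendsto_rpow_atTop_of_base_gt_one _ hb1).comp
      exact Tendsto.const_mul_atTop (by positivity) tendsto_natCast_atTop_atTop
    exact h1.eventually_ge_atTop _
  filter_upwards [hev] with K hK
  -- the sets of pairs
  let P : ℕ → ℕ → ℕ × ℕ → Prop := fun u v z => z.1 ∈ A ∧ z.2 ∈ A ∧
    ε * K ≤ |(blk2 b l K (z.1 + z.2) z.1 u v : ℝ) - K / (b : ℝ) ^ (2 * l)|
  let G : ℕ → ℕ → Finset (ℕ × ℕ) := fun u v => {z ∈ range (b ^ K) ×ˢ range (b ^ K) | P u v z}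
  set x : ℕ := b ^ (K + l) with hx
  have hbK : b ^ K ≤ x := Nat.pow_le_pow_right (by omega) (by omega)
  have hx0 : (0 : ℝ) < (x : ℝ) := by rw [hx]; positivity
  have hxR : (x : ℝ) = (b : ℝ) ^ K * (b : ℝ) ^ l := by rw [hx]; push_cast; rw [pow_add]
  -- energy
  have hE : ∑ m ∈ range (2 * x), (rep A m : ℝ) ^ 2 ≤ 2 * x * (R * ((2 * x : ℕ) : ℝ) ^ c) ^ 2 := by
    calc ∑ m ∈ range (2 * x), (rep A m : ℝ) ^ 2
        ≤ ∑ _m ∈ range (2 * x), (R * ((2 * x : ℕ) : ℝ) ^ c) ^ 2 := by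
          refine sum_le_sum fun m hm => ?_
          exact pow_le_pow_left₀ (by positivity) (hR _ m (mem_range.1 hm)) 2
      _ = 2 * x * (R * ((2 * x : ℕ) : ℝ) ^ c) ^ 2 := by
          rw [sum_const, card_range, nsmul_eq_mul]
          push_cast
          ring
  have hexpK : Real.exp (c0 * K) = (b : ℝ) ^ (κ * (K : ℝ)) := by
    rw [Real.rpow_def_of_pos hb0, hκ]
    congr 1
    field_simp
  have hG : ∀ u < b ^ l, ∀ v < b ^ l, (#(G u v) : ℝ) ≤ √D * (b : ℝ) ^ ((1 + c - κ / 2) * K) := by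
    intro u hu v hv
    have h1 := hmain x K (fun i => (b : ℝ) ^ (i + l)) (fun _ => (u : ℝ) / (b : ℝ) ^ l)
      (fun _ => 1 / (b : ℝ) ^ l) (fun _ => (v : ℝ) / (b : ℝ) ^ l) (fun _ => 1 / (b : ℝ) ^ l)
      (by
        intro i hi
        refine ⟨one_le_pow₀ hb1.le, ?_⟩
        rw [hx]
        push_cast
        exact pow_le_pow_right₀ hb1.le (by omega))
      (by
        intro i _
        show (b : ℝ) * (b : ℝ) ^ (i + l) ≤ (b : ℝ) ^ (i + 1 + l)
        apply le_of_eq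
        ring)
      (by
        intro i
        have h2 : (0 : ℝ) ≤ 1 / (b : ℝ) ^ l := by positivity
        have h3 : 1 / (b : ℝ) ^ l ≤ 1 := by
          rw [div_le_one (by positivity)]
          exact one_le_pow₀ hb1.le
        exact ⟨h2, h3, h2, h3⟩)
      A (G u v)
      (by
        intro z hz
        rw [mem_filter, mem_product, mem_range, mem_range] at hz
        obtain ⟨⟨hz1, hz2⟩, hzA, hzA', hzε⟩ := hz
        refine ⟨hzA, hzA', by omega, by omega, ?_⟩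
        rw [hits2_eq hb hu hv]
        have h4 : ∑ i ∈ range K, 1 / (b : ℝ) ^ l * (1 / (b : ℝ) ^ l) = K / (b : ℝ) ^ (2 * l) := by
          rw [sum_const, card_range, nsmul_eq_mul, two_mul, pow_add]
          field_simp
        rw [h4]
        exact hzε)
    -- square bound
    have h2 : (#(G u v) : ℝ) ^ 2 ≤ (√D * (b : ℝ) ^ ((1 + c - κ / 2) * K)) ^ 2 := by
      rw [mul_pow, Real.sq_sqrt hD0.le]
      have h3 : ((b : ℝ) ^ ((1 + c - κ / 2) * K)) ^ 2 * (b : ℝ) ^ (κ * (K : ℝ))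
          = ((b : ℝ) ^ K) ^ 2 * (((b : ℝ) ^ K) ^ c) ^ 2 := by
        rw [← Real.rpow_natCast ((b : ℝ) ^ ((1 + c - κ / 2) * K)) 2, ← Real.rpow_mul hb0.le,
          ← Real.rpow_add hb0, ← Real.rpow_natCast (b : ℝ) K, ← Real.rpow_natCast _ 2,
          ← Real.rpow_mul hb0.le, ← Real.rpow_mul hb0.le, ← Real.rpow_natCast _ 2,
          ← Real.rpow_mul hb0.le, ← Real.rpow_add hb0]
        congr 1
        push_cast
        ring
      have h4 : (0 : ℝ) < (b : ℝ) ^ (κ * (K : ℝ)) := Real.rpow_pos_of_pos hb0 _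
      refine le_of_mul_le_mul_right ?_ h4
      calc (#(G u v) : ℝ) ^ 2 * (b : ℝ) ^ (κ * (K : ℝ))
          = (#(G u v) : ℝ) ^ 2 * Real.exp (c0 * K) := by rw [hexpK]
        _ ≤ C0 * x * ∑ m ∈ range (2 * x), (rep A m : ℝ) ^ 2 := h1
        _ ≤ C0 * x * (2 * x * (R * ((2 * x : ℕ) : ℝ) ^ c) ^ 2) :=
            mul_le_mul_of_nonneg_left hE (by positivity)
        _ = D * (((b : ℝ) ^ K) ^ 2 * (((b : ℝ) ^ K) ^ c) ^ 2) := by
            have h5 : ((2 * x : ℕ) : ℝ) ^ c = (2 * (b : ℝ) ^ l) ^ c * ((b : ℝ) ^ K) ^ c := by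
              rw [← Real.mul_rpow (by positivity) (by positivity)]
              congr 1
              push_cast
              rw [hxR]
              ring
            rw [h5, hxR, hD]
            ring
        _ = D * (((b : ℝ) ^ ((1 + c - κ / 2) * K)) ^ 2 * (b : ℝ) ^ (κ * (K : ℝ))) := by rw [h3]
        _ = _ := by ring
    exact (sq_le_sq₀ (by positivity) (by positivity)).1 h2
  -- the bad numbers
  have hsub : {n : ℕ | n < b ^ K ∧ ∃ a ∈ A, ∃ a' ∈ A, a + a' = n ∧ ∃ u < b ^ l, ∃ v < b ^ l,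
      ε * K ≤ |(blk2 b l K n a u v : ℝ) - K / (b : ℝ) ^ (2 * l)|} ⊆
      (((range (b ^ l) ×ˢ range (b ^ l)).biUnion fun w => G w.1 w.2).image
        fun z => z.1 + z.2 : Finset ℕ) := by
    rintro n ⟨hn, a, ha, a', ha', hs, u, hu, v, hv, hbad⟩
    rw [mem_coe, mem_image]
    refine ⟨(a, a'), ?_, hs⟩
    rw [mem_biUnion]
    refine ⟨(u, v), by simp [hu, hv], ?_⟩
    rw [mem_filter, mem_product, mem_range, mem_range]
    refine ⟨⟨by show a < _; omega, by show a' < _; omega⟩, ha, ha', ?_⟩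
    show ε * K ≤ |(blk2 b l K (a + a') a u v : ℝ) - K / (b : ℝ) ^ (2 * l)|
    rw [hs]
    exact hbad
  have hcard := Set.ncard_le_ncard hsub (finite_toSet _)
  rw [Set.ncard_coe_finset] at hcard
  have hcard2 : (({n : ℕ | n < b ^ K ∧ ∃ a ∈ A, ∃ a' ∈ A, a + a' = n ∧ ∃ u < b ^ l,
      ∃ v < b ^ l, ε * K ≤ |(blk2 b l K n a u v : ℝ) - K / (b : ℝ) ^ (2 * l)|}.ncard : ℕ) : ℝ) ≤
      ∑ w ∈ range (b ^ l) ×ˢ range (b ^ l), (#(G w.1 w.2) : ℝ) := by
    have h1 := hcard.trans (card_image_le.trans card_biUnion_le)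
    exact_mod_cast h1
  refine hcard2.trans ?_
  calc ∑ w ∈ range (b ^ l) ×ˢ range (b ^ l), (#(G w.1 w.2) : ℝ)
      ≤ ∑ _w ∈ range (b ^ l) ×ˢ range (b ^ l), √D * (b : ℝ) ^ ((1 + c - κ / 2) * K) := by
        refine sum_le_sum fun w hw => ?_
        rw [mem_product, mem_range, mem_range] at hw
        exact hG w.1 hw.1 w.2 hw.2
    _ = ((b : ℝ) ^ l) ^ 2 * √D * (b : ℝ) ^ ((1 + c - κ / 2) * K) := by
        rw [sum_const, card_product, card_range, nsmul_eq_mul]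
        push_cast
        ring
    _ ≤ (b : ℝ) ^ ((κ / 4) * (K : ℝ)) * (b : ℝ) ^ ((1 + c - κ / 2) * K) :=
        mul_le_mul_of_nonneg_right hK (by positivity)
    _ = (b : ℝ) ^ ((1 - c) * K) := by
        rw [← Real.rpow_add hb0]
        congr 1
        rw [hc]
        ring

end Pool.Agent.Helper5.NM
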